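import Pool.Agent.Helper82K9.PV.PV9

/-!
# The residues of consecutive pairs of primes along almost all integer polynomials

The question is about the `n` for which `n` and `n + 2` are primes: are the residues modulo `4` of two consecutive such
`n` asymptotically independent? We consider the `n` for which the values `P(n)` and `P(n + 2)` of ONE integer polynomial
`P` are primes (up to the sign); for `P(n) = n` this is the question. For almost all `P` of large degree and coefficients
at most `H` we prove that there is no bias: for every modulus `q` the class of the next element after an element `n ≤ x` is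
asymptotically independent of the class of `n`, and distributed as the local densities of `P` demand; for `q = 4` the
densities of the classes `b` and `b + 2` are equal, so these are equally likely.

From the starting files: the theorems of Siegel and Walfisz and the prime number theorem in the forms of
`Pool.Agent.H343R2.EH` and `Pool.Agent.H442R2.EHI`, and Mertens' theorem (`Pool.Agent.Erdos456`).
From Mathlib: `Fintype.piFinset fun i => S i`: the functions `a` with `a i ∈ S i` for all `i`; `⌊t⌋₊`: the integer part.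
-/

set_option autoImplicit false

namespace Pool.Agent.Results.MP_74f661_nt.ConsecutivePairsOfValues

open Finset

/-- The polynomials of degree at most `m` with integer coefficients of absolute value at most `H`, given by their
coefficients. -/
noncomputable def polys (m H : ℕ) : Finset (Fin (m + 1) → ℤ) := Fintype.piFinset (fun _ => Icc (-(H : ℤ)) H)

/-- The value at `n` of the polynomial with the coefficients `P j`. -/
def value {m : ℕ} (P : Fin (m + 1) → ℤ) (n : ℕ) : ℤ := ∑ j, P j * (n : ℤ) ^ (j : ℕ)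

open Classical in
/-- The number of the elements of `S` with the property `F`. -/
noncomputable def number {α : Type} (S : Finset α) (F : α → Prop) : ℝ := ((S.filter F).card : ℝ)

/-- `|P(n)|` and `|P(n + 2)|` are primes. -/
def Twin {m : ℕ} (P : Fin (m + 1) → ℤ) (n : ℕ) : Prop := (value P n).natAbs.Prime ∧ (value P (n + 2)).natAbs.Prime

/-- The number of the `n ≤ x` with `Twin P n` in the class `a` modulo `q`. -/
noncomputable def elements {m : ℕ} (P : Fin (m + 1) → ℤ) (q a x : ℕ) : ℝ :=
  number (Icc 1 x) (fun n => n % q = a ∧ Twin P n)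

/-- The number of the `n ≤ x` with `Twin P n` in the class `a` modulo `q` for which the next `n' > n` with `Twin P n'`
exists and is in the class `b` modulo `q`. -/
noncomputable def pairs {m : ℕ} (P : Fin (m + 1) → ℤ) (q a b x : ℕ) : ℝ :=
  number (Icc 1 x) (fun n => n % q = a ∧ Twin P n ∧
    ∃ n', n < n' ∧ n' % q = b ∧ Twin P n' ∧ ∀ l, n < l → l < n' → ¬ Twin P l)

/-- The primes up to `z`. -/
def primes (z : ℕ) : Finset ℕ := (Icc 1 z).filter Nat.Prime

open Classical in
/-- The product of `(1 - 1 / p) ^ (- 2)` over the primes `p ≤ z` if no prime `p ≤ z` divides `P(n)` or `P(n + 2)`,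
otherwise `0`. -/
noncomputable def rough {m : ℕ} (z : ℕ) (P : Fin (m + 1) → ℤ) (n : ℕ) : ℝ :=
  if (∀ p ∈ primes z, ¬ (p : ℤ) ∣ value P n ∧ ¬ (p : ℤ) ∣ value P (n + 2)) then ∏ p ∈ primes z, ((1 - 1 / (p : ℝ)) ^ 2)⁻¹
  else 0

/-- The density of the class `c` modulo `q`: the mean value over a period (`q` times the product of the primes up to `z`)
of `rough`, restricted to the `n` in the class `c`. -/
noncomputable def density {m : ℕ} (z : ℕ) (P : Fin (m + 1) → ℤ) (q c : ℕ) : ℝ :=
  (∑ n ∈ range (q * ∏ p ∈ primes z, p), if n % q = c then rough z P n else 0) / ((q * ∏ p ∈ primes z, p : ℕ) : ℝ)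

/-- Half of `log log H`, rounded down. -/
noncomputable def cutoff (H : ℕ) : ℕ := ⌊Real.log (Real.log H) / 2⌋₊

lemma number_le {α : Type} (S : Finset α) (F G : α → Prop) [DecidablePred G] (h : ∀ a ∈ S, F a → G a) :
    number S F ≤ ((S.filter G).card : ℝ) := by
  classical
  unfold number
  exact Nat.cast_le.2 (card_le_card fun a ha => mem_filter.2 ⟨(mem_filter.1 ha).1, h a (mem_filter.1 ha).1 (mem_filter.1 ha).2⟩)

lemma primes_eq (z : ℕ) : primes z = Nat.primesLE z := Pool.Agent.Helper82K9.PR.primes_eq z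

lemma prod_primes (z : ℕ) : ∏ p ∈ primes z, p = primorial z := by rw [primes_eq]; rfl

lemma rough_eq {m : ℕ} (z : ℕ) (P : Fin (m + 1) → ℤ) (n : ℕ) : Pool.Agent.Helper82K9.PV.rh z P n = rough z P n := by
  unfold Pool.Agent.Helper82K9.PV.rh Pool.Agent.Helper82K9.PR.MM rough
  have key : ∀ u : ℤ, Int.gcd u ((primorial z : ℕ) : ℤ) = 1 ↔ ∀ p ∈ primes z, ¬ (p : ℤ) ∣ u := by
    intro u
    rw [Int.gcd_def, Int.natAbs_natCast, primes_eq]
    constructor
    · intro h1 p hp hpu
      rw [Nat.mem_primesLE] at hp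
      have h2 : p ∣ Nat.gcd u.natAbs (primorial z) :=
        Nat.dvd_gcd (Int.natCast_dvd.1 hpu) (hp.2.dvd_primorial_iff.2 hp.1)
      rw [h1] at h2
      exact hp.2.one_lt.ne' (Nat.dvd_one.1 h2)
    · intro h1
      by_contra hcon
      obtain ⟨p, hp, hpd⟩ := Nat.exists_prime_and_dvd hcon
      have h2 := hpd.trans (Nat.gcd_dvd_left _ _)
      have h3 := hpd.trans (Nat.gcd_dvd_right _ _)
      exact h1 p (Nat.mem_primesLE.2 ⟨hp.dvd_primorial_iff.1 h3, hp⟩) (Int.natCast_dvd.2 h2)
  have hC : (primorial z : ℝ) / Nat.totient (primorial z) = ∏ p ∈ primes z, (1 - 1 / (p : ℝ))⁻¹ :=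
    Pool.Agent.Helper82K9.PR.Cz_eq z
  by_cases h1 : Int.gcd (value P n) ((primorial z : ℕ) : ℤ) = 1
  · by_cases h2 : Int.gcd (value P (n + 2)) ((primorial z : ℕ) : ℤ) = 1
    · have h3 : ∀ p ∈ primes z, ¬ (p : ℤ) ∣ value P n ∧ ¬ (p : ℤ) ∣ value P (n + 2) := fun p hp =>
        ⟨(key _).1 h1 p hp, (key _).1 h2 p hp⟩
      rw [if_pos h3]
      refine Eq.trans (congrArg₂ (· * ·) (if_pos h1) (if_pos h2)) ?_
      show (primorial z : ℝ) / Nat.totient (primorial z) * ((primorial z : ℝ) / Nat.totient (primorial z)) = _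
      rw [hC, ← prod_mul_distrib]
      apply prod_congr rfl
      intro p _
      rw [← mul_inv, pow_two]
    · have h3 : ¬ ∀ p ∈ primes z, ¬ (p : ℤ) ∣ value P n ∧ ¬ (p : ℤ) ∣ value P (n + 2) := fun h =>
        h2 ((key _).2 fun p hp => (h p hp).2)
      rw [if_neg h3]
      exact mul_eq_zero_of_right _ (if_neg h2)
  · have h3 : ¬ ∀ p ∈ primes z, ¬ (p : ℤ) ∣ value P n ∧ ¬ (p : ℤ) ∣ value P (n + 2) := fun h =>
      h1 ((key _).2 fun p hp => (h p hp).1)
    rw [if_neg h3]
    exact mul_eq_zero_of_left (if_neg h1) _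

lemma density_eq {m : ℕ} (z : ℕ) (P : Fin (m + 1) → ℤ) (q c : ℕ) :
    Pool.Agent.Helper82K9.PV.dens (Pool.Agent.Helper82K9.PV.rh z P) (q * primorial z) q c = density z P q c := by
  unfold Pool.Agent.Helper82K9.PV.dens density
  rw [prod_primes]
  congr 1
  apply sum_congr rfl
  intro n _
  rw [rough_eq]

lemma total_eq {m : ℕ} (z : ℕ) (P : Fin (m + 1) → ℤ) (q : ℕ) (hq : 1 ≤ q) :
    Pool.Agent.Helper82K9.PV.dens0 (Pool.Agent.Helper82K9.PV.rh z P) (q * primorial z) =
      ∑ c ∈ range q, density z P q c := by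
  rw [← Pool.Agent.Helper82K9.PV.dens_sum _ _ q hq]
  apply sum_congr rfl
  intro c _
  rw [density_eq]

lemma elements_eq {m : ℕ} (P : Fin (m + 1) → ℤ) (q a x : ℕ) :
    (Pool.Agent.Helper82K9.PV.allC (Pool.Agent.Helper82K9.PV.Tw P) q a x : ℝ) = elements P q a x := by
  unfold Pool.Agent.Helper82K9.PV.allC elements number
  congr 2
  ext n
  simp only [mem_filter]
  rfl

lemma pairs_eq {m : ℕ} (P : Fin (m + 1) → ℤ) (q a b x : ℕ) :
    (Pool.Agent.Helper82K9.PV.nextC (Pool.Agent.Helper82K9.PV.Tw P) q a b x : ℝ) = pairs P q a b x := by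
  unfold Pool.Agent.Helper82K9.PV.nextC pairs number
  congr 2
  ext n
  simp only [mem_filter]
  apply and_congr_right
  intro _
  apply and_congr_right
  intro _
  apply and_congr_right
  intro _
  constructor
  · rintro ⟨s, h1, h2, h3, h4⟩
    refine ⟨n + s, by omega, h3, h2, fun l hl1 hl2 hl3 => ?_⟩
    apply h4 (l - n) (by omega) (by omega)
    have : n + (l - n) = l := by omega
    rw [this]
    exact hl3
  · rintro ⟨n', h1, h2, h3, h4⟩
    have e : n + (n' - n) = n' := by omega
    refine ⟨n' - n, by omega, ?_, ?_, fun l hl1 hl2 => h4 (n + l) (by omega) (by omega)⟩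
    · rw [e]; exact h3
    · rw [e]; exact h2

/-- The residues modulo `4` in the same class modulo `2` have the same density. -/
lemma density_four {m : ℕ} (z : ℕ) (hz : 2 ≤ z) (P : Fin (m + 1) → ℤ) (b : ℕ) (hb : b < 4) :
    density z P 4 ((b + 2) % 4) = density z P 4 b := by
  rw [← density_eq, ← density_eq]
  unfold Pool.Agent.Helper82K9.PV.dens
  congr 1
  set ρ := Pool.Agent.Helper82K9.PV.rh z P with hρ
  set w := primorial z with hw
  have hper1 : ∀ n, ρ (n + w) = ρ n := by
    intro n
    have := Pool.Agent.Helper82K9.PV.rh_per z 1 P n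
    rwa [one_mul] at this
  have hw4 : w % 4 = 2 := by
    have h2 : 2 ∣ w := Nat.prime_two.dvd_primorial_iff.2 hz
    have h4 : ¬ 4 ∣ w := by
      intro h
      have h5 : 2 * 2 ∣ w := h
      have := squarefree_primorial z 2 h5
      rw [Nat.isUnit_iff] at this
      omega
    omega
  have hperb : ∀ c, ∀ n, (if (n + 4 * w) % 4 = c then ρ (n + 4 * w) else 0) = (if n % 4 = c then ρ n else 0) := by
    intro c n
    have h1 : (n + 4 * w) % 4 = n % 4 := by omega
    have h2 : ρ (n + 4 * w) = ρ n := Pool.Agent.Helper82K9.PV.rh_per z 4 P n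
    rw [h1, h2]
  have h1 := Pool.Agent.Helper82K9.PV.per_sum (fun n => if n % 4 = (b + 2) % 4 then ρ n else 0) (4 * w) (hperb _) (w - 1)
  have hw0 : 0 < w := primorial_pos z
  rw [← h1]
  have h2 : Ioc (w - 1) (w - 1 + 4 * w) = (range (4 * w)).image (fun n => n + w) := by
    ext n
    rw [mem_Ioc, mem_image]
    constructor
    · intro h
      exact ⟨n - w, mem_range.2 (by omega), by omega⟩
    · rintro ⟨a, ha, rfl⟩
      rw [mem_range] at ha
      omega
  rw [h2, sum_image (fun a _ b _ hab => by simpa using hab)]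
  apply sum_congr rfl
  intro n _
  rw [hper1]
  by_cases h : n % 4 = b
  · rw [if_pos h, if_pos (by omega)]
  · rw [if_neg h, if_neg (by omega)]

/-- Let `q ≥ 1` and `ε > 0`. There is `D` such that for all `m ≥ D` and all `B` there is `A` such that for all `H ≥ A` and
all `x` with `(log H) ^ D ≤ x ≤ (log H) ^ B` the following holds for all but `ε (number)` of the integer polynomials `P` of
degree at most `m` with coefficients at most `H`, for all classes `a`, `b` modulo `q`:

* the number of the `n ≤ x` in the class `a` for which `|P(n)|` and `|P(n + 2)|` are primes, times `(log H) ^ 2`, is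
  `S a * x` up to `ε x`;
* the number of those of these `n` for which the next such `n' > n` is in the class `b`, times `(log H) ^ 2`, is
  `S a * S b / S * x` up to `ε x`.

Here `S c` is the density of the class `c` and `S` is the sum of the `S c`. If `q = 4`, then `S (b + 2) = S b`. -/
theorem result (q : ℕ) (hq : 1 ≤ q) (ε : ℝ) (hε : 0 < ε) : ∃ D : ℕ, ∀ m : ℕ, D ≤ m → ∀ B : ℕ, ∃ A : ℕ, ∀ H : ℕ,
    A ≤ H → ∀ x : ℕ, Real.log H ^ D ≤ x → (x : ℝ) ≤ Real.log H ^ B →
    number (polys m H) (fun P => ¬ ∀ a < q, ∀ b < q,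
      |elements P q a x * Real.log H ^ 2 - density (cutoff H) P q a * x| ≤ ε * x ∧
      |pairs P q a b x * Real.log H ^ 2 - density (cutoff H) P q a * density (cutoff H) P q b /
        (∑ c ∈ range q, density (cutoff H) P q c) * x| ≤ ε * x) ≤ ε * (polys m H).card ∧
    (q = 4 → ∀ P ∈ polys m H, ∀ b < 4, density (cutoff H) P 4 ((b + 2) % 4) = density (cutoff H) P 4 b) := by
  classical
  obtain ⟨D, hD⟩ := Pool.Agent.Helper82K9.PV.nextU q hq ε hε
  refine ⟨D, fun m hm B => ?_⟩
  obtain ⟨A1, hA13, hA1⟩ := hD m hm B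
  obtain ⟨A2, hA23, hA2⟩ := Pool.Agent.Helper82K9.PR.zH_facts m B 1 1 one_pos
  refine ⟨max A1 A2, fun H hH x hx hxB => ?_⟩
  have hz : Pool.Agent.Helper82K9.PR.zH H = cutoff H := rfl
  refine ⟨?_, ?_⟩
  · refine le_trans (number_le _ _ _ fun v hv h3 => ?_) (hA1 H ((le_max_left _ _).trans hH) x hx hxB)
    intro h4
    apply h3
    intro a ha b hb
    obtain ⟨h5, h6⟩ := h4 a ha b hb
    rw [hz] at h5 h6
    rw [pairs_eq, density_eq, density_eq, total_eq _ _ _ hq, mul_comm (Real.log H ^ 2)] at h5
    rw [elements_eq, density_eq, mul_comm (Real.log H ^ 2)] at h6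
    exact ⟨h6, h5⟩
  · intro hq4 P _ b hb
    obtain ⟨_, hz2, _⟩ := hA2 H ((le_max_right _ _).trans hH)
    rw [hz] at hz2
    exact density_four (cutoff H) hz2 P b hb

end Pool.Agent.Results.MP_74f661_nt.ConsecutivePairsOfValues
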