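import Pool.Agent.Helper32K9.Joint.Transfer
import Pool.Agent.Results.MP_74f661_nt.RoughPairPatterns

set_option autoImplicit false

/-!
# Rough twins: the joint law of the residues modulo 4 and of the distances

`S_z` is the set of the `n` such that neither `n` nor `n + 2` has a prime factor `≤ z` (`RoughPair z n`); it
contains the first member of every twin prime pair `(p, p + 2)` with `p > z`, and its density is
`dens z = (1 / 6) ∏ (1 - 2 / p)`, `3 < p ≤ z`. For every `k ≥ 1` and `ε > 0` there are `K` and `z₀` such that for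
all `z ≥ z₀`, ALL intervals `(Z, Z + Y]` with `Y ≥ z ^ K`, all `2 ^ (k + 1)` patterns `a` of residues modulo 4 and
ALL real `x ≥ 0`, the proportion of the elements `n` of `S_z` in the interval such that `n` and the next `k`
elements `n < n 1 < … < n k` of `S_z` have the residues `a` AND `n k - n ≤ x / dens z` is
`2 ^ (-k-1) P (x)`, up to `ε`, where `P (x) = 1 - ∑_{j < k} exp (-x) x ^ j / j!` is the distribution function of
the `k`-th point of a Poisson process. So the residues are asymptotically equidistributed and INDEPENDENT of the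
distance `n k - n`; for `k = 1`, the gap after `n` has the same exponential law for each of the four pairs of
residues of `n` and its successor.

The starting file RoughPairPatterns of this problem has the residues alone (the case of all distances).
-/

namespace Pool.Agent.Results.MP_74f661_nt.ResidueGapLaw

open Finset
open Pool.Agent.Results.MP_74f661_nt.RoughPairPatterns (RoughPair Consecutive)

/-- the density of the set of the `n` such that neither `n` nor `n + 2` has a prime factor `≤ z` -/
noncomputable def dens (z : ℕ) : ℝ := (∏ p ∈ (Ioc 3 z).filter Nat.Prime, (1 - 2 / (p : ℝ))) / 6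

open Classical in
/-- the number of the elements of `S_z` in `(Z, Z + Y]` -/
noncomputable def total (z Z Y : ℕ) : ℕ := ((Ioc Z (Z + Y)).filter (RoughPair z)).card

open Classical in
/-- the number of the elements `g` of `S_z` in `(Z, Z + Y]` such that `g` and the next `k` elements
`n 1, …, n k` of `S_z` are congruent to `a 0, a 1, …, a k` modulo 4 and `n k - g ≤ x / dens z` -/
noncomputable def count (z k : ℕ) (a : ℕ → ℕ) (x : ℝ) (Z Y : ℕ) : ℕ :=
  ((Ioc Z (Z + Y)).filter (fun g => ∃ n : ℕ → ℕ, n 0 = g ∧ Consecutive (RoughPair z) k n ∧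
    (∀ i ≤ k, n i % 4 = a i) ∧ ((n k : ℝ) - g) * dens z ≤ x)).card

/-- **The residues modulo 4 are independent of the distances.** -/
theorem result :
    (∀ z p : ℕ, p.Prime → (p + 2).Prime → z < p → RoughPair z p) ∧
    (∀ k : ℕ, 1 ≤ k → ∀ ε : ℝ, 0 < ε → ∃ K z₀ : ℕ, ∀ z : ℕ, z₀ ≤ z → ∀ Z Y : ℕ, z ^ K ≤ Y →
      0 < total z Z Y ∧ ∀ a : ℕ → ℕ, (∀ i ≤ k, a i = 1 ∨ a i = 3) → ∀ x : ℝ, 0 ≤ x →
        |(count z k a x Z Y : ℝ) -
          total z Z Y * (1 - ∑ j ∈ range k, Real.exp (-x) * x ^ j / (j.factorial : ℝ)) / 2 ^ (k + 1)| ≤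
          ε * total z Z Y) := by
  refine ⟨fun z p h1 h2 h3 => Pool.Agent.Results.MP_74f661_nt.RoughPairPatterns.result.1 z p h1 h2 h3, ?_⟩
  intro k hk ε hε
  have H := Pool.Agent.Results.MP_74f661_nt.RoughPairPatterns.pattern
  have hcard : (Pool.Agent.V11146.MK.cls (Pool.Agent.W123.RU.Poly.Q (Pool.Agent.Y879.GL.sy 6 5 ![0, 2])) 2).card = 2 := by
    have h1 := Pool.Agent.V11146.MK.card_cls (Pool.Agent.W123.RU.Poly.Q (Pool.Agent.Y879.GL.sy 6 5 ![0, 2])) 2
    have h2 := Pool.Agent.Y879.GL.nu_small H 2 Nat.prime_two (by norm_num)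
    omega
  obtain ⟨K, y0, h⟩ := Pool.Agent.Helper32K9.Joint.rel_joint (Pool.Agent.Y879.GL.sy 6 5 ![0, 2])
    (Pool.Agent.Y879.GL.sy_sys H) (Pool.Agent.Y879.GL.sy_noTr H (by intro i; fin_cases i <;> simp)) 2 k
    Nat.prime_two hk 6 5 (by norm_num) RoughPair 3
    (fun y hy n => (Pool.Agent.Results.MP_74f661_nt.RoughPairPatterns.rough_iff y n hy).trans
      (Pool.Agent.Y879.GL.Rg_iff H y n)) (fun n => n % 4)
    (fun a => if a = 1 then 0 else 1) {1, 3}
    (by
      intro b hb m
      simp only [mem_insert, mem_singleton] at hb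
      rcases hb with rfl | rfl
      · simp only [if_true]
        omega
      · simp only [OfNat.ofNat_ne_one, if_false]
        omega)
    (by
      intro b hb
      rw [Pool.Agent.V11146.MK.mem_cls, Pool.Agent.Y879.GL.Q_iff]
      simp only [mem_insert, mem_singleton] at hb
      rcases hb with rfl | rfl
      · refine ⟨by norm_num, ?_⟩
        rintro ⟨i, hi⟩
        fin_cases i
        · norm_num at hi
        · norm_num at hi
      · refine ⟨by norm_num, ?_⟩
        rintro ⟨i, hi⟩
        fin_cases i
        · norm_num at hi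
        · norm_num at hi) dens (fun y _ => by
      have h1 := Pool.Agent.Y879.GL.V_eq H y
      unfold Pool.Agent.Y879.GL.VP at h1
      have h2 : (dens y : ℝ) = Pool.Agent.W123.RP.Vq (Pool.Agent.W123.RU.Poly.Q (Pool.Agent.Y879.GL.sy 6 5 ![0, 2])) y /
          ((6 : ℕ) : ℝ) := by
        rw [← h1]
        unfold dens
        push_cast
        rfl
      rw [h2]
      push_cast
      field_simp) ε hε
  refine ⟨K, max y0 5, ?_⟩
  intro z hz Z Y hY
  have hz5 : 5 ≤ z := (le_max_right _ _).trans hz
  obtain ⟨h1, h2⟩ := h z ((le_max_left _ _).trans hz) Z Y hY (Or.inr (fun h5 =>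
    (h5 5 (by norm_num) hz5).1 (dvd_refl 5)))
  refine ⟨h1, ?_⟩
  intro a ha x hx
  have h3 := h2 a (by
    intro i hi
    simp only [mem_insert, mem_singleton]
    exact ha i hi) x hx
  rw [hcard] at h3
  exact h3

end Pool.Agent.Results.MP_74f661_nt.ResidueGapLaw
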