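import Pool.Agent.Helper32K9.Mark.TwinS

set_option autoImplicit false

/-!
# Rough twins: gap vectors with prescribed residues modulo 4

`S z` is the set of the `n` such that neither `n` nor `n + 2` has a prime factor `≤ z` (`RoughPair z n`); it
contains the first member of every twin prime pair `(p, p + 2)` with `p > z`. For every `k ≥ 1`, all large `z` and
ALL intervals `(Z, Z + Y]` with `Y ≥ z ^ K`, each of the `2 ^ (k + 1)` patterns of residues modulo 4 of `k + 1`
consecutive elements of `S z` is realised by at least `κ (log z) ^ (2 k)` vectors of gaps `h`, that is, by a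
positive proportion of all vectors `h` with coordinates `≤ W log ^ 2 z`, each of them with the right order
of frequency: at least `κ Y / (log z) ^ (2 (k + 1))` elements `n` of `S z` in the interval have the `k` next gaps
`h` and the given pattern of residues.

The starting file RoughPairPatterns of this problem has the frequencies of the residue patterns alone; new is the
joint statement for the residues and the sizes of the gaps.
-/

namespace Pool.Agent.Results.MP_74f661_nt.ResiduePatternGaps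

open Pool.Agent.Helper32K9.Typ (NextGaps)
open Pool.Agent.Results.MP_74f661_nt.RoughPairPatterns (RoughPair Consecutive)

/-- neither `n` nor `n + 2` has a prime factor `≤ z` -/
def S (z : ℕ) : Set ℕ := {n | RoughPair z n}

/-- `g` and the `k` next elements of `A` are congruent to `a 0, a 1, …, a k` modulo 4 -/
def Residues (A : Set ℕ) (k : ℕ) (a : ℕ → ℕ) (g : ℕ) : Prop :=
  ∃ n : ℕ → ℕ, n 0 = g ∧ Consecutive (· ∈ A) k n ∧ ∀ i ≤ k, n i % 4 = a i

/-- **Every residue pattern is realised by a positive proportion of the gap vectors.** -/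
theorem result :
    (∀ z p : ℕ, p.Prime → (p + 2).Prime → z < p → p ∈ S z) ∧
    (∀ k : ℕ, 1 ≤ k → ∃ K z₀ : ℕ, ∃ W κ : ℝ, 0 < W ∧ 0 < κ ∧ ∀ z : ℕ, z₀ ≤ z → ∀ Z Y : ℕ, z ^ K ≤ Y →
      ∀ a : ℕ → ℕ, (∀ i ≤ k, a i = 1 ∨ a i = 3) →
        κ * Real.log z ^ (2 * k) ≤ ({h : Fin k → ℕ | (∀ i, 0 < h i ∧ (h i : ℝ) ≤ W * Real.log z ^ 2) ∧
          κ * Y / Real.log z ^ (2 * (k + 1)) ≤
            ({n | n ∈ Set.Ioc Z (Z + Y) ∧ Residues (S z) k a n ∧ NextGaps (S z) h n}.ncard : ℝ)}.ncard : ℝ)) := by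
  refine ⟨fun z p h1 h2 h3 => Pool.Agent.Results.MP_74f661_nt.RoughPairPatterns.result.1 z p h1 h2 h3, fun k hk => ?_⟩
  obtain ⟨K₁, z₁, h1⟩ := Pool.Agent.Results.MP_74f661_nt.RoughPairPatterns.result.2.2.1 k (1 / 2 ^ (k + 2)) (by positivity)
  obtain ⟨v, hv, K₂, z₂, h2⟩ := Pool.Agent.Helper32K9.Mark.total_low
  obtain ⟨W, κ, hW, hκ, z₃, h3⟩ := Pool.Agent.Helper32K9.Mark.twin_gaps k hk (K₁ + K₂ + 1) (by omega)
    (v / 2 ^ (k + 2)) (by positivity)
  refine ⟨K₁ + K₂ + 1, z₁ + z₂ + z₃ + 1, W, κ, hW, hκ, fun z hz Z Y hY a ha => ?_⟩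
  have hz1 : 1 ≤ z := by omega
  have e1 := (h1 z (by omega) Z Y ((Nat.pow_le_pow_right hz1 (by omega)).trans hY)).2 a ha
  have e2 := h2 z (by omega) Z Y ((Nat.pow_le_pow_right hz1 (by omega)).trans hY)
  have hcount : (Pool.Agent.Results.MP_74f661_nt.RoughPairPatterns.count z k a Z Y : ℝ) =
      (({n | Residues (S z) k a n} ∩ Set.Ioc Z (Z + Y)).ncard : ℝ) := by
    classical
    unfold Pool.Agent.Results.MP_74f661_nt.RoughPairPatterns.count
    rw [← Set.ncard_coe_finset]
    congr 2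
    ext n
    rw [Finset.mem_coe, Finset.mem_filter, Finset.mem_Ioc]
    exact ⟨fun h => ⟨h.2, h.1⟩, fun h => ⟨h.2, h.1⟩⟩
  have e3 := h3 z (by omega) Z Y hY (S z) (fun n hn => hn) {n | Residues (S z) k a n} (by
    rintro n ⟨m, rfl, hm, _⟩
    exact hm.1 0 (Nat.zero_le _)) (by
    rw [← hcount]
    have e4 := (abs_le.1 e1).1
    have e5 : (Pool.Agent.Results.MP_74f661_nt.RoughPairPatterns.total z Z Y : ℝ) / 2 ^ (k + 1) =
      2 * ((Pool.Agent.Results.MP_74f661_nt.RoughPairPatterns.total z Z Y : ℝ) / 2 ^ (k + 2)) := by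
      rw [pow_succ _ (k + 1)]
      field_simp
    have e6 : 1 / 2 ^ (k + 2) * (Pool.Agent.Results.MP_74f661_nt.RoughPairPatterns.total z Z Y : ℝ) =
      (Pool.Agent.Results.MP_74f661_nt.RoughPairPatterns.total z Z Y : ℝ) / 2 ^ (k + 2) := by ring
    have e7 : v / 2 ^ (k + 2) * Y / Real.log z ^ 2 ≤
        (Pool.Agent.Results.MP_74f661_nt.RoughPairPatterns.total z Z Y : ℝ) / 2 ^ (k + 2) := by
      have : v / 2 ^ (k + 2) * Y / Real.log z ^ 2 = (v * Y / Real.log z ^ 2) / 2 ^ (k + 2) := by ring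
      rw [this]
      gcongr
    rw [e5, e6] at e4
    linarith)
  refine e3.trans (le_of_eq ?_)
  have : ∀ h : Fin k → ℕ, {n | n ∈ {n | Residues (S z) k a n} ∧ n ∈ Set.Ioc Z (Z + Y) ∧ NextGaps (S z) h n} =
      {n | n ∈ Set.Ioc Z (Z + Y) ∧ Residues (S z) k a n ∧ NextGaps (S z) h n} := by
    intro h
    ext n
    simp only [Set.mem_ofPred_eq]
    tauto
  simp only [this]

end Pool.Agent.Results.MP_74f661_nt.ResiduePatternGaps
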