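import Pool.Agent.Helper82K9.PW.PW7

/-!
# Consecutive pairs of primes have unbiased residues, for almost all polynomials congruent to `n`

The question is about the `n` for which `n` and `n + 2` are primes: of those in the class `a` modulo `4`, is the next one in
each of the classes `1` and `3` with the limiting proportion `1 / 2`? We consider the `n` for which the values `P(n)` and
`P(n + 2)` of ONE integer polynomial `P` are primes (up to the sign); for `P(n) = n` this is the question. We take the
polynomials `P` which are congruent to the polynomial `n` modulo every prime `p ≤ z`, `z = [(log log H) / 2]`; their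
degree is bounded by a large constant and their coefficients by `H`; `P(n) = n` is one of them. For almost all of them we
prove what the question expects for `P(n) = n`: the proportion is `1 / 2` up to `ε`. The same is proved for every modulus
`q`, with `1 / (number of the admissible classes)` in the place of `1 / 2`, and the number of the `n ≤ x` in an admissible
class is the one of Hardy and Littlewood.

From the starting files: the theorems of Siegel and Walfisz and the prime number theorem in the forms of
`Pool.Agent.H343R2.EH` and `Pool.Agent.H442R2.EHI`, and Mertens' theorem (`Pool.Agent.Erdos456`).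
From Mathlib: `Fintype.piFinset fun i => S i`: the functions `a` with `a i ∈ S i` for all `i`; `⌊t⌋₊`: the integer part;
`∏' p : Nat.Primes, f p`: the infinite product over the primes.
-/

set_option autoImplicit false

namespace Pool.Agent.Results.MP_74f661_nt.UnbiasedTwinResidues

open Finset

open Classical in
/-- The polynomials of degree at most `m` with integer coefficients of absolute value at most `H`, given by their
coefficients, which are congruent to the polynomial `n` modulo every prime `p ≤ z`. -/
noncomputable def family (m H z : ℕ) : Finset (Fin (m + 1) → ℤ) :=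
  (Fintype.piFinset (fun _ => Icc (-(H : ℤ)) H)).filter (fun P =>
    ∀ p : ℕ, p.Prime → p ≤ z → ∀ j, (p : ℤ) ∣ P j - (if (j : ℕ) = 1 then 1 else 0))

/-- The value at `n` of the polynomial with the coefficients `P j`. -/
def value {m : ℕ} (P : Fin (m + 1) → ℤ) (n : ℕ) : ℤ := ∑ j, P j * (n : ℤ) ^ (j : ℕ)

open Classical in
/-- The number of the elements of `S` with the property `F`. -/
noncomputable def number {α : Type} (S : Finset α) (F : α → Prop) : ℝ := ((S.filter F).card : ℝ)

/-- `|P(n)|` and `|P(n + 2)|` are primes. -/
def Twin {m : ℕ} (P : Fin (m + 1) → ℤ) (n : ℕ) : Prop := (value P n).natAbs.Prime ∧ (value P (n + 2)).natAbs.Prime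

/-- The number of the `n ≤ x` with `Twin P n` in the class `a` modulo `q`. -/
noncomputable def elements {m : ℕ} (P : Fin (m + 1) → ℤ) (q a x : ℕ) : ℝ :=
  number (Icc 1 x) (fun n => n % q = a ∧ Twin P n)

/-- The number of the `n ≤ x` with `Twin P n` in the class `a` modulo `q` for which the next `n' > n` with `Twin P n'`
exists and is in the class `b` modulo `q`. -/
noncomputable def pairs {m : ℕ} (P : Fin (m + 1) → ℤ) (q a b x : ℕ) : ℝ :=
  number (Icc 1 x) (fun n => n % q = a ∧ Twin P n ∧
    ∃ n', n < n' ∧ n' % q = b ∧ Twin P n' ∧ ∀ l, n < l → l < n' → ¬ Twin P l)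

/-- The classes `c` modulo `q` for which `c` and `c + 2` are prime to `q` (for `q = 4`: the classes `1` and `3`). -/
def admissible (q : ℕ) : Finset ℕ := (range q).filter (fun c => Nat.Coprime c q ∧ Nat.Coprime (c + 2) q)

/-- The constant of Hardy and Littlewood for the twin primes: the product over the primes `p` of
`(1 - ν / p) / (1 - 1 / p) ^ 2`, with `ν = 1` for `p = 2` and `ν = 2` for `p > 2`. -/
noncomputable def constant : ℝ :=
  ∏' p : Nat.Primes, (1 - (if (p : ℕ) = 2 then 1 else 2) / ((p : ℕ) : ℝ)) / (1 - 1 / ((p : ℕ) : ℝ)) ^ 2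

/-- Half of `log log H`, rounded down. -/
noncomputable def cutoff (H : ℕ) : ℕ := ⌊Real.log (Real.log H) / 2⌋₊

lemma number_le {α : Type} (S : Finset α) (F G : α → Prop) [DecidablePred G] (h : ∀ a ∈ S, F a → G a) :
    number S F ≤ ((S.filter G).card : ℝ) := by
  classical
  unfold number
  exact Nat.cast_le.2 (card_le_card fun a ha => mem_filter.2 ⟨(mem_filter.1 ha).1, h a (mem_filter.1 ha).1 (mem_filter.1 ha).2⟩)

lemma family_eq (m H z : ℕ) : Pool.Agent.Helper32K9.QB.Cl m H (primorial z) (Pool.Agent.Helper82K9.PW.idP m) = family m H z := by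
  classical
  unfold Pool.Agent.Helper32K9.QB.Cl family Pool.Agent.Helper82K9.PR.Bx
  ext P
  rw [mem_filter, mem_filter]
  apply and_congr_right
  intro _
  constructor
  · intro h p hp hpz j
    have h1 : (p : ℤ) ∣ ((primorial z : ℕ) : ℤ) := by exact_mod_cast hp.dvd_primorial_iff.2 hpz
    exact h1.trans (h j)
  · intro h j
    rw [Int.natCast_dvd]
    apply Finset.prod_primes_dvd
    · intro p hp
      exact (mem_filter.1 hp).2.prime
    · intro p hp
      rw [mem_filter, mem_range] at hp
      exact Int.natCast_dvd.1 (h p hp.2 (by omega) j)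

lemma elements_eq {m : ℕ} (P : Fin (m + 1) → ℤ) (q a x : ℕ) :
    (Pool.Agent.Helper82K9.PV.allC (Pool.Agent.Helper82K9.PV.Tw P) q a x : ℝ) = elements P q a x := by
  unfold Pool.Agent.Helper82K9.PV.allC elements number
  congr 2
  ext n
  simp only [mem_filter]
  rfl

lemma pairs_eq {m : ℕ} (P : Fin (m + 1) → ℤ) (q a b x : ℕ) :
    (Pool.Agent.Helper82K9.PV.nextC (Pool.Agent.Helper82K9.PV.Tw P) q a b x : ℝ) = pairs P q a b x := by
  unfold Pool.Agent.Helper82K9.PV.nextC pairs number
  congr 2
  ext n
  simp only [mem_filter]
  apply and_congr_right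
  intro _
  apply and_congr_right
  intro _
  apply and_congr_right
  intro _
  constructor
  · rintro ⟨s, h1, h2, h3, h4⟩
    refine ⟨n + s, by omega, h3, h2, fun l hl1 hl2 hl3 => ?_⟩
    apply h4 (l - n) (by omega) (by omega)
    have : n + (l - n) = l := by omega
    rw [this]
    exact hl3
  · rintro ⟨n', h1, h2, h3, h4⟩
    have e : n + (n' - n) = n' := by omega
    refine ⟨n' - n, by omega, ?_, ?_, fun l hl1 hl2 => h4 (n + l) (by omega) (by omega)⟩
    · rw [e]; exact h3
    · rw [e]; exact h2

lemma constant_eq : Pool.Agent.Helper82K9.PW.SSQ {0, 2} = constant := by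
  unfold Pool.Agent.Helper82K9.PW.SSQ constant
  congr 1
  ext p
  unfold Pool.Agent.Helper82K9.PW.fac
  rw [Pool.Agent.Helper82K9.PW.nu02 p p.2]
  have e2 : ({0, 2} : Finset ℕ).card = 2 := by decide
  rw [e2]
  split_ifs <;> norm_num

/-- Let `q ≥ 1` and `ε > 0`. There is `D` such that for all `m ≥ D` and all `B` there is `A` such that for all `H ≥ A` and
all `x` with `(log H) ^ D ≤ x ≤ (log H) ^ B` the following holds for all but `ε (number)` of the integer polynomials `P` of
degree at most `m` with coefficients at most `H` which are congruent to `n` modulo every prime `p ≤ [(log log H) / 2]`, and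
for all admissible classes `a`, `b` modulo `q`, whose number is `φ`:

* the number of the `n ≤ x` in the class `a` for which `|P(n)|` and `|P(n + 2)|` are primes, times `(log H) ^ 2 / x`, is
  `constant / φ` up to `ε`;
* the proportion of those of these `n` for which the next such `n' > n` is in the class `b` is `1 / φ` up to `ε`. -/
theorem result (q : ℕ) (hq : 1 ≤ q) (ε : ℝ) (hε : 0 < ε) : ∃ D : ℕ, ∀ m : ℕ, D ≤ m → ∀ B : ℕ, ∃ A : ℕ, ∀ H : ℕ,
    A ≤ H → ∀ x : ℕ, Real.log H ^ D ≤ x → (x : ℝ) ≤ Real.log H ^ B →
    number (family m H (cutoff H)) (fun P => ¬ ∀ a ∈ admissible q, ∀ b ∈ admissible q,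
      |elements P q a x * Real.log H ^ 2 / x - constant / (admissible q).card| ≤ ε ∧
      |pairs P q a b x / elements P q a x - 1 / (admissible q).card| ≤ ε) ≤ ε * (family m H (cutoff H)).card := by
  classical
  obtain ⟨D, hD⟩ := Pool.Agent.Helper82K9.PW.unbiased q hq ε hε
  refine ⟨D, fun m hm B => ?_⟩
  obtain ⟨A, hA3, hA⟩ := hD m hm B
  refine ⟨A, fun H hH x hx hxB => ?_⟩
  have hz : Pool.Agent.Helper82K9.PR.zH H = cutoff H := rfl
  have h1 := hA H hH x hx hxB
  rw [hz, family_eq] at h1
  refine le_trans (number_le _ _ _ fun v hv h3 => ?_) h1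
  intro h4
  apply h3
  intro a ha b hb
  obtain ⟨h5, h6⟩ := h4 a ha b hb
  rw [elements_eq, constant_eq] at h5
  rw [elements_eq, pairs_eq] at h6
  exact ⟨h5, h6⟩

end Pool.Agent.Results.MP_74f661_nt.UnbiasedTwinResidues
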